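import Pool.Agent.H.MP_bf3dd3_lc.LN

set_option autoImplicit false

namespace Pool.Agent.H.MP_bf3dd3_lc
open MeasureTheory Set

structure Valid {V : Type} (Tr Pr : V → V → Prop) (x : V) : Prop where
  t1 : ∃ y, Tr x y ∧ ∀ z, Tr x z → z = y
  t2 : ∃ y, Tr y x ∧ ∀ z, Tr z x → z = y
  p1 : ∀ y, Pr x y → ∀ z, Pr x z → z = y
  p2 : ∃ u, Pr u x ∧ ∃ u', Pr u' x ∧ u' ≠ u
  sb : ∀ y, Pr x y → ∀ z, Pr z y → z = x ∨ Tr x z ∨ Tr z x
  cs : ∀ y, Tr x y → ∃ u, Pr u x ∧ ∃ w, Pr w y ∧ Tr u w

def Q {V : Type} (Tr Pr : V → V → Prop) (c : V → Fin 12) (x : V) : Prop :=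
  Valid Tr Pr x →
    (∀ y, Tr x y → Valid Tr Pr y → (c x).val / 6 = (c y).val / 6 ∧
      ((c x).val / 6 = 1 → (c y).val % 6 / 2 = ((c x).val % 6 / 2 + 1) % 3) ∧
      ((c x).val / 6 = 0 → (c x).val % 2 = (c y).val % 2)) ∧
    ((c x).val / 6 = 0 → ∀ y, Pr x y → (c x).val % 2 ≠ (c y).val % 2)

def Bk {V : Type} (Pr : V → V → Prop) (B : V → Prop) : ℕ → V → Prop
  | 0 => B
  | k + 1 => fun x => B x ∧ ∀ u, Pr u x → Bk Pr B k u

open Classical in
noncomputable def fst0 (p : ℕ → Prop) : ℕ := Nat.find (show ∃ k, ¬ p k ∨ ∀ k, p k from by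
  by_cases h : ∀ k, p k
  · exact ⟨0, Or.inr h⟩
  · obtain ⟨k, hk⟩ := not_forall.1 h
    exact ⟨k, Or.inl hk⟩)

lemma fst0_succ (p q : ℕ → Prop) (h0 : p 0) (h : ∀ k, p (k + 1) ↔ q k) (hq : ¬ ∀ k, q k) :
    fst0 p = fst0 q + 1 := by
  classical
  have hp : ¬ ∀ k, p k := fun hp => hq fun k => (h k).1 (hp _)
  unfold fst0
  rw [Nat.find_eq_iff]
  constructor
  · rw [h]
    exact Or.inl ((Nat.find_spec (p := fun k => ¬ q k ∨ ∀ k, q k) _).resolve_right hq)
  · intro n hn
    cases n with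
    | zero => simp [h0, hp]
    | succ n =>
      have := Nat.find_min _ (Nat.lt_of_succ_lt_succ hn)
      rw [h]
      tauto

lemma fst0_meas {X : Type} [MeasurableSpace X] (p : X → ℕ → Prop)
    (hp : ∀ k, Measurable fun x => p x k) : Measurable fun x => fst0 (p x) := by
  classical
  unfold fst0
  exact measurable_find _ fun k => Measurable.setOf ((hp k).not.or (Measurable.forall hp))

section
variable {X : Type} [MeasurableSpace X] {R : X → X → Prop} {g : ℕ → X → X}

lemma mex (hg : ∀ i, Measurable (g i)) (hR : ∀ x y, R x y → ∃ i, g i x = y)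
    {Y : Type} [MeasurableSpace Y] (p : Y → X) (hp : Measurable p) (φ : Y × X → Prop)
    (hφ : Measurable φ) (h : ∀ q, φ q → R (p q.1) q.2) : Measurable fun a => ∃ y, φ (a, y) := by
  have : (fun a => ∃ y, φ (a, y)) = fun a => ∃ i, φ (a, g i (p a)) := by
    funext a
    apply propext
    constructor
    · rintro ⟨y, hy⟩
      obtain ⟨i, hi⟩ := hR _ _ (h _ hy)
      exact ⟨i, by rw [hi]; exact hy⟩
    · rintro ⟨i, hi⟩
      exact ⟨_, hi⟩
  rw [this]
  exact Measurable.exists fun i => hφ.comp (measurable_id.prodMk ((hg i).comp hp))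

lemma mall (hg : ∀ i, Measurable (g i)) (hR : ∀ x y, R x y → ∃ i, g i x = y)
    {Y : Type} [MeasurableSpace Y] (p : Y → X) (hp : Measurable p) (ψ φ : Y × X → Prop)
    (hψ : Measurable ψ) (hφ : Measurable φ) (h : ∀ q, ψ q → R (p q.1) q.2) :
    Measurable fun a => ∀ y, ψ (a, y) → φ (a, y) := by
  have := (mex hg hR p hp (fun q => ψ q ∧ ¬ φ q) (hψ.and hφ.not) fun q hq => h q hq.1).not
  convert this using 2
  simp

lemma msel (hg : ∀ i, Measurable (g i)) (hR : ∀ x y, R x y → ∃ i, g i x = y)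
    (S : X × X → Prop) (hS : Measurable S) (h : ∀ q, S q → R q.1 q.2) :
    ∃ T : X → X, Measurable T ∧ ∀ x y, S (x, y) → S (x, T x) := by
  classical
  have hex : ∀ x, ∃ i, S (x, g i x) ∨ ¬ ∃ i, S (x, g i x) := fun x => by
    by_cases h : ∃ i, S (x, g i x)
    · exact h.imp fun _ => Or.inl
    · exact ⟨0, Or.inr h⟩
  have hm : ∀ i, Measurable fun x => S (x, g i x) := fun i => hS.comp (measurable_id.prodMk (hg i))
  refine ⟨fun x => g (Nat.find (hex x)) x, Measurable.find hg
    (fun i => Measurable.setOf ((hm i).or (Measurable.exists hm).not)) hex, fun x y hy => ?_⟩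
  obtain ⟨i, hi⟩ := hR _ _ (h _ hy)
  exact (Nat.find_spec (hex x)).resolve_right (not_not.2 ⟨i, by rw [hi]; exact hy⟩)

variable {Tr Pr : X → X → Prop}

lemma valid_meas [MeasurableEq X] (hg : ∀ i, Measurable (g i)) (hR : ∀ x y, R x y → ∃ i, g i x = y)
    (hs : ∀ x y, R x y → R y x) (hT : Measurable fun p : X × X => Tr p.1 p.2)
    (hP : Measurable fun p : X × X => Pr p.1 p.2) (hTR : ∀ x y, Tr x y → R x y)
    (hPR : ∀ x y, Pr x y → R x y) : Measurable (Valid Tr Pr) := by
  have mT : ∀ {Y : Type} [MeasurableSpace Y] {a b : Y → X}, Measurable a → Measurable b →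
      Measurable fun q => Tr (a q) (b q) := fun ha hb => hT.comp (ha.prodMk hb)
  have mP : ∀ {Y : Type} [MeasurableSpace Y] {a b : Y → X}, Measurable a → Measurable b →
      Measurable fun q => Pr (a q) (b q) := fun ha hb => hP.comp (ha.prodMk hb)
  have mE : ∀ {Y : Type} [MeasurableSpace Y] {a b : Y → X}, Measurable a → Measurable b →
      Measurable fun q => a q = b q := fun ha hb =>
    measurableSet_setOfPred.1 (measurableSet_eq_fun ha hb)
  have e : Valid Tr Pr = fun x => (∃ y, Tr x y ∧ ∀ z, Tr x z → z = y) ∧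
      (∃ y, Tr y x ∧ ∀ z, Tr z x → z = y) ∧ (∀ y, Pr x y → ∀ z, Pr x z → z = y) ∧
      (∃ u, Pr u x ∧ ∃ u', Pr u' x ∧ u' ≠ u) ∧
      (∀ y, Pr x y → ∀ z, Pr z y → z = x ∨ Tr x z ∨ Tr z x) ∧
      ∀ y, Tr x y → ∃ u, Pr u x ∧ ∃ w, Pr w y ∧ Tr u w := by
    funext x
    exact propext ⟨fun ⟨a, b, c, d, e, f⟩ => ⟨a, b, c, d, e, f⟩,
      fun ⟨a, b, c, d, e, f⟩ => ⟨a, b, c, d, e, f⟩⟩
  rw [e]
  refine Measurable.and ?_ (Measurable.and ?_ (Measurable.and ?_ (Measurable.and ?_
    (Measurable.and ?_ ?_))))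
  · exact mex hg hR id measurable_id (fun q => Tr q.1 q.2 ∧ ∀ z, Tr q.1 z → z = q.2)
      (hT.and (mall hg hR Prod.fst measurable_fst (fun r => Tr r.1.1 r.2) (fun r => r.2 = r.1.2)
        (mT (by fun_prop) (by fun_prop)) (mE (by fun_prop) (by fun_prop)) fun r h => hTR _ _ h))
      fun q h => hTR _ _ h.1
  · exact mex hg hR id measurable_id (fun q => Tr q.2 q.1 ∧ ∀ z, Tr z q.1 → z = q.2)
      ((mT (by fun_prop) (by fun_prop)).and (mall hg hR Prod.fst measurable_fst
        (fun r => Tr r.2 r.1.1) (fun r => r.2 = r.1.2)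
        (mT (by fun_prop) (by fun_prop)) (mE (by fun_prop) (by fun_prop))
        fun r h => hs _ _ (hTR _ _ h))) fun q h => hs _ _ (hTR _ _ h.1)
  · exact mall hg hR id measurable_id (fun q => Pr q.1 q.2) (fun q => ∀ z, Pr q.1 z → z = q.2) hP
      (mall hg hR Prod.fst measurable_fst (fun r => Pr r.1.1 r.2) (fun r => r.2 = r.1.2)
        (mP (by fun_prop) (by fun_prop)) (mE (by fun_prop) (by fun_prop)) fun r h => hPR _ _ h)
      fun q h => hPR _ _ h
  · exact mex hg hR id measurable_id (fun q => Pr q.2 q.1 ∧ ∃ u', Pr u' q.1 ∧ u' ≠ q.2)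
      ((mP (by fun_prop) (by fun_prop)).and (mex hg hR Prod.fst measurable_fst
        (fun r => Pr r.2 r.1.1 ∧ r.2 ≠ r.1.2)
        ((mP (by fun_prop) (by fun_prop)).and (mE (by fun_prop) (by fun_prop)).not)
        fun r h => hs _ _ (hPR _ _ h.1))) fun q h => hs _ _ (hPR _ _ h.1)
  · exact mall hg hR id measurable_id (fun q => Pr q.1 q.2)
      (fun q => ∀ z, Pr z q.2 → z = q.1 ∨ Tr q.1 z ∨ Tr z q.1) hP
      (mall hg hR Prod.snd measurable_snd (fun r => Pr r.2 r.1.2)
        (fun r => r.2 = r.1.1 ∨ Tr r.1.1 r.2 ∨ Tr r.2 r.1.1) (mP (by fun_prop) (by fun_prop))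
        ((mE (by fun_prop) (by fun_prop)).or ((mT (by fun_prop) (by fun_prop)).or
          (mT (by fun_prop) (by fun_prop)))) fun r h => hs _ _ (hPR _ _ h))
      fun q h => hPR _ _ h
  · exact mall hg hR id measurable_id (fun q => Tr q.1 q.2)
      (fun q => ∃ u, Pr u q.1 ∧ ∃ w, Pr w q.2 ∧ Tr u w) hT
      (mex hg hR Prod.fst measurable_fst (fun r => Pr r.2 r.1.1 ∧ ∃ w, Pr w r.1.2 ∧ Tr r.2 w)
        ((mP (by fun_prop) (by fun_prop)).and (mex hg hR Prod.snd measurable_snd
          (fun s : ((X × X) × X) × X => Pr s.2 s.1.1.2 ∧ Tr s.1.2 s.2)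
          ((mP (by fun_prop) (by fun_prop)).and (mT (by fun_prop) (by fun_prop)))
          fun s h => hTR _ _ h.2)) fun r h => hs _ _ (hPR _ _ h.1))
      fun q h => hTR _ _ h

omit [MeasurableSpace X] in
lemma Bk_base {B : X → Prop} {k : ℕ} {x : X} (h : Bk Pr B k x) : B x := by
  cases k with
  | zero => exact h
  | succ k => exact h.1

omit [MeasurableSpace X] in
lemma Bk_inv {B : X → Prop} (hV : ∀ x, B x → Valid Tr Pr x) (h1 : ∀ x y, B x → Tr x y → B y)
    (h2 : ∀ x y, B x → Tr y x → B y) (k : ℕ) :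
    (∀ x y, Bk Pr B k x → Tr x y → Bk Pr B k y) ∧ ∀ x y, Bk Pr B k x → Tr y x → Bk Pr B k y := by
  induction k with
  | zero => exact ⟨h1, h2⟩
  | succ k ih =>
    have sib : ∀ u y z, Bk Pr B k u → Pr u y → Pr z y → Bk Pr B k z := by
      intro u y z hu a b
      rcases (hV u (Bk_base hu)).sb y a z b with rfl | h | h
      · exact hu
      · exact ih.1 _ _ hu h
      · exact ih.2 _ _ hu h
    constructor
    · intro x y hx h
      obtain ⟨u, a, w, b, c⟩ := (hV x hx.1).cs y h
      exact ⟨h1 x y hx.1 h, fun z hz => sib w y z (ih.1 _ _ (hx.2 u a) c) b hz⟩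
    · intro x y hx h
      obtain ⟨u, a, w, b, c⟩ := (hV y (h2 x y hx.1 h)).cs x h
      exact ⟨h2 x y hx.1 h, fun z hz => sib u y z (ih.2 _ _ (hx.2 w b) c) a hz⟩

theorem solve [MeasurableEq X] (μ : Measure X) [IsFiniteMeasure μ] (hg : ∀ i, Measurable (g i))
    (hR : ∀ x y, R x y → ∃ i, g i x = y)
    (hs : ∀ x y, R x y → R y x) (hT : Measurable fun p : X × X => Tr p.1 p.2)
    (hP : Measurable fun p : X × X => Pr p.1 p.2) (hTR : ∀ x y, Tr x y → R x y)
    (hPR : ∀ x y, Pr x y → R x y)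
    (mtp : ∀ f : X × X → ENNReal, Measurable f →
      ∫⁻ x, ∑' y : {y // R x y}, f (x, y.1) ∂μ = ∫⁻ x, ∑' y : {y // R x y}, f (y.1, x) ∂μ) :
    ∃ c : X → Fin 12, Measurable c ∧ ∀ᵐ x ∂μ, Q Tr Pr c x := by
  classical
  have hV := valid_meas hg hR hs hT hP hTR hPR
  have mP : ∀ {Y : Type} [MeasurableSpace Y] {a b : Y → X}, Measurable a → Measurable b →
      Measurable fun q => Pr (a q) (b q) := fun ha hb => hP.comp (ha.prodMk hb)
  obtain ⟨T, hTm, hT1⟩ := msel hg hR _ hT fun q h => hTR _ _ h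
  obtain ⟨T', hTm', hT2⟩ := msel hg hR (fun p => Tr p.2 p.1) (hT.comp measurable_swap)
    fun q h => hs _ _ (hTR _ _ h)
  have e1 : ∀ x y, Valid Tr Pr x → Tr x y → T x = y := fun x y hx h => by
    obtain ⟨z, _, hz⟩ := hx.t1
    exact (hz _ (hT1 x y h)).trans (hz y h).symm
  have e2 : ∀ x y, Valid Tr Pr y → Tr x y → T' y = x := fun x y hy h => by
    obtain ⟨z, _, hz⟩ := hy.t2
    exact (hz _ (hT2 y x h)).trans (hz x h).symm
  let Ap : X → Prop := fun x => ∀ n, Valid Tr Pr (T^[n] x)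
  let Am : X → Prop := fun x => ∀ n, Valid Tr Pr (T'^[n] x)
  have lk : ∀ x y, Valid Tr Pr x → Valid Tr Pr y → Tr x y → (Ap x ↔ Ap y) ∧ (Am x ↔ Am y) := by
    intro x y hx hy h
    refine ⟨⟨fun a n => ?_, fun a n => ?_⟩, fun a n => ?_, fun a n => ?_⟩
    · rw [← e1 x y hx h]; exact a (n + 1)
    · cases n with
      | zero => exact hx
      | succ n => rw [Function.iterate_succ_apply, e1 x y hx h]; exact a n
    · cases n with
      | zero => exact hy
      | succ n => rw [Function.iterate_succ_apply, e2 x y hy h]; exact a n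
    · rw [← e2 x y hy h]; exact a (n + 1)
  let B : X → Prop := fun x => Ap x ∧ Am x
  have bV : ∀ x, B x → Valid Tr Pr x := fun x h => h.1 0
  have b1 : ∀ x y, B x → Tr x y → B y := fun x y hx h => by
    have hy : Valid Tr Pr y := by rw [← e1 x y (bV x hx) h]; exact hx.1 1
    exact ⟨(lk x y (bV x hx) hy h).1.1 hx.1, (lk x y (bV x hx) hy h).2.1 hx.2⟩
  have b2 : ∀ x y, B x → Tr y x → B y := fun x y hx h => by
    have hy : Valid Tr Pr y := by rw [← e2 y x (bV x hx) h]; exact hx.2 1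
    exact ⟨(lk y x hy (bV x hx) h).1.2 hx.1, (lk y x hy (bV x hx) h).2.2 hx.2⟩
  have binv := Bk_inv bV b1 b2
  have sib : ∀ k u y z, Bk Pr B k u → Pr u y → Pr z y → Bk Pr B k z := by
    intro k u y z hu a b
    rcases (bV u (Bk_base hu)).sb y a z b with rfl | h | h
    · exact hu
    · exact (binv k).1 _ _ hu h
    · exact (binv k).2 _ _ hu h
  have mAp : Measurable Ap := Measurable.forall fun n => hV.comp (hTm.iterate n)
  have mAm : Measurable Am := Measurable.forall fun n => hV.comp (hTm'.iterate n)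
  have mB : Measurable B := mAp.and mAm
  have mBk : ∀ k, Measurable (Bk Pr B k) := by
    intro k
    induction k with
    | zero => exact mB
    | succ k ih =>
      exact mB.and (mall hg hR id measurable_id (fun q => Pr q.2 q.1) (fun q => Bk Pr B k q.2)
        (mP (by fun_prop) (by fun_prop)) (ih.comp measurable_snd) fun q h => hs _ _ (hPR _ _ h))
  let I : Set X := {x | ∀ k, Bk Pr B k x}
  have mI : MeasurableSet I := Measurable.setOf (Measurable.forall mBk)
  have hI : μ I = 0 := by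
    let f : X × X → ENNReal := fun p => if p.1 ∈ I ∧ p.2 ∈ I ∧ Pr p.2 p.1 then 1 else 0
    have hf : Measurable f := Measurable.ite (Measurable.setOf
      ((measurableSet_setOfPred.1 (measurable_fst mI)).and
        ((measurableSet_setOfPred.1 (measurable_snd mI)).and (mP (by fun_prop) (by fun_prop)))))
      measurable_const measurable_const
    have h1 : 2 * μ I ≤ ∫⁻ x, ∑' y : {y // R x y}, f (x, y.1) ∂μ := by
      rw [← lintegral_indicator_const mI]
      refine lintegral_mono fun x => ?_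
      by_cases hx : x ∈ I
      · obtain ⟨u, a, u', b, c⟩ := (bV x (hx 0)).p2
        have hu : ∀ u, Pr u x → f (x, u) = 1 := fun u h =>
          if_pos ⟨hx, fun k => (hx (k + 1)).2 u h, h⟩
        rw [indicator_of_mem hx]
        refine le_trans ?_ (ENNReal.sum_le_tsum
          {(⟨u, hs _ _ (hPR _ _ a)⟩ : {y // R x y}), ⟨u', hs _ _ (hPR _ _ b)⟩})
        rw [Finset.sum_pair (fun e => c (congrArg Subtype.val e).symm), hu u a, hu u' b]
        norm_num
      · rw [indicator_of_notMem hx]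
        exact zero_le
    have h2 : ∫⁻ x, ∑' y : {y // R x y}, f (y.1, x) ∂μ ≤ 1 * μ I := by
      rw [← lintegral_indicator_const mI]
      refine lintegral_mono fun x => ?_
      by_cases hx : ∃ y, y ∈ I ∧ x ∈ I ∧ Pr x y
      · obtain ⟨y, a, b, c⟩ := hx
        rw [indicator_of_mem b, tsum_eq_single ⟨y, hPR _ _ c⟩ fun z hz => if_neg fun h =>
          hz (Subtype.ext ((bV x (b 0)).p1 y c z.1 h.2.2))]
        exact (if_pos ⟨a, b, c⟩).le
      · have : ∀ y : {y // R x y}, f (y.1, x) = 0 := fun y => if_neg fun h => hx ⟨_, h⟩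
        simp [this]
    have h3 := (h1.trans (mtp f hf).le).trans h2
    by_contra hne
    have := (ENNReal.mul_le_mul_iff_left hne (measure_ne_top μ I)).1 h3
    norm_num at this
  let hh : X → ℕ := fun x => fst0 fun k => Bk Pr B k x
  have mhh : Measurable hh := fst0_meas _ mBk
  have hcong : ∀ x y, (∀ k, Bk Pr B k x ↔ Bk Pr B k y) → hh x = hh y := fun x y h => by
    simp only [hh, h]
  let E : X → Prop := fun x => ∃ u, Pr u x ∧ B u ∧ hh u % 2 = 0
  have mE : Measurable E := mex hg hR id measurable_id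
    (fun q => Pr q.2 q.1 ∧ B q.2 ∧ hh q.2 % 2 = 0) ((mP (by fun_prop) (by fun_prop)).and
      ((mB.comp measurable_snd).and ((Measurable.of_discrete (f := fun n : ℕ => n % 2 = 0)).comp
        (mhh.comp measurable_snd)))) fun q h => hs _ _ (hPR _ _ h.1)
  let m : X → ℕ := fun x => if Ap x then fst0 fun n => Valid Tr Pr (T'^[n] x)
    else 2 * fst0 fun n => Valid Tr Pr (T^[n] x)
  have mm : Measurable m := Measurable.ite mAp.setOf
    (fst0_meas _ fun n => hV.comp (hTm'.iterate n))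
    ((fst0_meas _ fun n => hV.comp (hTm.iterate n)).const_mul 2)
  let l : X → ℕ := fun x => if B x then hh x % 2 else 6 + 2 * (m x % 3) + if E x then 1 else 0
  have hl : ∀ x, l x < 12 := fun x => by
    simp only [l]
    split_ifs <;> omega
  have ml : Measurable l := Measurable.ite mB.setOf
    ((Measurable.of_discrete (f := fun n : ℕ => n % 2)).comp mhh)
    (((Measurable.of_discrete (f := fun n : ℕ => 6 + 2 * (n % 3))).comp mm).add
      (Measurable.ite mE.setOf measurable_const measurable_const))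
  refine ⟨fun x => ⟨l x % 12, Nat.mod_lt _ (by norm_num)⟩,
    (Measurable.of_discrete (f := fun n : ℕ => (⟨n % 12, Nat.mod_lt _ (by norm_num)⟩ : Fin 12))).comp
      ml, ?_⟩
  filter_upwards [measure_eq_zero_iff_ae_notMem.1 hI] with x hx hv
  simp only [Nat.mod_eq_of_lt (hl _)]
  constructor
  · intro y h hy
    by_cases hb : B x
    · have := hcong x y fun k => ⟨fun a => (binv k).1 _ _ a h, fun a => (binv k).2 _ _ a h⟩
      have c1 : l x = hh x % 2 := if_pos hb
      have c2 : l y = hh y % 2 := if_pos (b1 x y hb h)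
      omega
    · have hb' : ¬ B y := fun a => hb (b2 y x a h)
      have hm : m y % 3 = (m x + 1) % 3 := by
        by_cases ha : Ap x
        · simp only [m, if_pos ha, if_pos ((lk x y hv hy h).1.1 ha)]
          rw [fst0_succ (fun n => Valid Tr Pr (T'^[n] y)) (fun n => Valid Tr Pr (T'^[n] x)) hy
            (fun k => by rw [Function.iterate_succ_apply, e2 x y hy h]) fun a => hb ⟨ha, a⟩]
        · have ha' : ¬ Ap y := fun a => ha ((lk x y hv hy h).1.2 a)
          simp only [m, if_neg ha, if_neg ha']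
          rw [fst0_succ (fun n => Valid Tr Pr (T^[n] x)) (fun n => Valid Tr Pr (T^[n] y)) hv
            (fun k => by rw [Function.iterate_succ_apply, e1 x y hv h]) ha']
          omega
      simp only [l, if_neg hb, if_neg hb']
      split_ifs <;> omega
  · intro h0 y h
    have hb : B x := by
      by_contra hb
      simp only [l, if_neg hb] at h0
      omega
    by_cases hy : B y
    · have : hh y = hh x + 1 := fst0_succ _ _ hy
        (fun k => ⟨fun a => a.2 x h, fun a => ⟨hy, fun u hu => sib k x y u a h hu⟩⟩) hx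
      simp only [l, if_pos hb, if_pos hy, this]
      omega
    · simp only [l, if_pos hb, if_neg hy]
      split_ifs with hE
      · obtain ⟨u, a, _, c⟩ := hE
        have := hcong x u fun k => ⟨fun b => sib k x y u b h a, fun b => sib k u y x b a h⟩
        omega
      · have : hh x % 2 ≠ 0 := fun a => hE ⟨x, h, hb, a⟩
        omega

end

end Pool.Agent.H.MP_bf3dd3_lc
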