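import Mathlib

set_option autoImplicit false

namespace Pool.Agent.H.MP_bf3dd3_lc
open MeasureTheory

/-- allowed labelled rooted balls: graphs on `Fin (n + 1)` rooted at `0`, labels in `Fin k` -/
abbrev Balls (k : ℕ) : Type :=
  (n : ℕ) → SimpleGraph (Fin (n + 1)) → (Fin (n + 1) → Fin k) → Prop

/-- the `c`-labelled `r`-ball of `G` rooted at `v` is isomorphic to an allowed ball -/
def SatAt {V : Type} {k : ℕ} (r : ℕ) (P : Balls k) (G : SimpleGraph V) (c : V → Fin k) (v : V) :
    Prop :=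
  ∃ (n : ℕ) (e : Fin (n + 1) → V), Function.Injective e ∧ e 0 = v ∧
    Set.range e = {w | G.edist v w ≤ (r : ℕ∞)} ∧ P n (G.comap e) (c ∘ e)

/-- Borel graph of degree at most `Δ` with a quasi-invariant probability measure -/
def IsMeasuredGraph (Δ : ℕ) {X : Type} [MeasurableSpace X] (μ : Measure X) (G : SimpleGraph X) :
    Prop :=
  IsProbabilityMeasure μ ∧ MeasurableSet {p : X × X | G.Adj p.1 p.2} ∧
    (∀ x, (G.neighborSet x).encard ≤ Δ) ∧
    ∀ A : Set X, μ A = 0 → μ {x | ∃ y ∈ A, G.Reachable x y} = 0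

/-- the mass transport principle -/
def MassTransport {X : Type} [MeasurableSpace X] (μ : Measure X) (G : SimpleGraph X) : Prop :=
  ∀ f : X × X → ENNReal, Measurable f →
    ∫⁻ x, ∑' y : {y // G.Reachable x y}, f (x, y.1) ∂μ =
      ∫⁻ x, ∑' y : {y // G.Reachable x y}, f (y.1, x) ∂μ

/-- a Borel labelling satisfies the problem at almost every vertex -/
def Solvable {X : Type} [MeasurableSpace X] {k : ℕ} (r : ℕ) (P : Balls k) (μ : Measure X)
    (G : SimpleGraph X) : Prop :=
  ∃ c : X → Fin k, Measurable c ∧ ∀ᵐ x ∂μ, SatAt r P G c x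

end Pool.Agent.H.MP_bf3dd3_lc
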