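import Pool.Agent.H.MP_bf3dd3_lc.Gr

set_option autoImplicit false

namespace Pool.Agent.H.MP_bf3dd3_lc
open MeasureTheory Set

abbrev Z2 : Type := ℤ_[2]

lemma two_ne (a b : Z2) : 2 * a ≠ 2 * b + 1 := by
  intro h
  have : IsUnit ((2 : ℕ) : Z2) := IsUnit.of_mul_eq_one (a - b) (by push_cast; linear_combination h)
  exact PadicInt.p_nonunit this

lemma ex_half (x : Z2) : ∃ y, x = 2 * y ∨ x = 2 * y + 1 := by
  obtain ⟨n, h1, h2⟩ := PadicInt.exists_mem_range x
  rw [PadicInt.maximalIdeal_eq_span_p, Ideal.mem_span_singleton'] at h2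
  obtain ⟨y, hy⟩ := h2
  refine ⟨y, ?_⟩
  interval_cases n
  · left; push_cast at hy; linear_combination -hy
  · right; push_cast at hy; linear_combination -hy

noncomputable def hf (x : Z2) : Z2 := (ex_half x).choose

lemma hf_iff (x y : Z2) : x = 2 * y ∨ x = 2 * y + 1 ↔ y = hf x := by
  have h := (ex_half x).choose_spec
  refine ⟨fun h' => ?_, fun e => e ▸ h⟩
  have c : (2 : Z2) ≠ 0 := two_ne_zero
  unfold hf
  rcases h with h | h <;> rcases h' with h' | h'
  · exact mul_left_cancel₀ c (h'.symm.trans h)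
  · exact absurd (h.symm.trans h') (two_ne _ _)
  · exact absurd (h'.symm.trans h) (two_ne _ _)
  · exact mul_left_cancel₀ c (add_right_cancel (h'.symm.trans h))

abbrev XX : Type := Z2 × Fin 7

def EE (u v : XX) : Prop :=
  (u.1 = v.1 ∧ ((u.2 = 0 ∧ v.2 = 1) ∨ (u.2 = 1 ∧ v.2 = 2) ∨ (u.2 = 1 ∧ v.2 = 3) ∨
    (u.2 = 3 ∧ v.2 = 4) ∨ (u.2 = 3 ∧ v.2 = 5) ∨ (u.2 = 0 ∧ v.2 = 6))) ∨
  (v.1 = u.1 + 1 ∧ u.2 = 2 ∧ v.2 = 0) ∨
  ((u.1 = 2 * v.1 ∨ u.1 = 2 * v.1 + 1) ∧ u.2 = 3 ∧ v.2 = 0)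

def GG : SimpleGraph XX where
  Adj u v := EE u v ∨ EE v u
  symm := ⟨fun _ _ h => h.symm⟩
  loopless := ⟨by
    rintro ⟨x, t⟩ h
    have : EE (x, t) (x, t) := h.elim id id
    unfold EE at this
    simp only at this
    omega⟩

lemma nb0 (y : Z2) : GG.neighborSet (y, 0) =
    {(y, 1), (y - 1, 2), (2 * y, 3), (2 * y + 1, 3), (y, 6)} := by
  ext ⟨x, t⟩
  fin_cases t <;> simp [GG, EE, eq_comm, sub_eq_iff_eq_add]
  constructor <;> rintro rfl <;> ring

lemma nb1 (y : Z2) : GG.neighborSet (y, 1) = {(y, 0), (y, 2), (y, 3)} := by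
  ext ⟨x, t⟩
  fin_cases t <;> simp [GG, EE, eq_comm]

lemma nb2 (y : Z2) : GG.neighborSet (y, 2) = {(y, 1), (y + 1, 0)} := by
  ext ⟨x, t⟩
  fin_cases t <;> simp [GG, EE, eq_comm]

lemma nb3 (y : Z2) : GG.neighborSet (y, 3) = {(y, 1), (hf y, 0), (y, 4), (y, 5)} := by
  ext ⟨x, t⟩
  have := hf_iff y x
  fin_cases t <;> simp [GG, EE, this] <;> exact eq_comm

lemma nb4 (y : Z2) : GG.neighborSet (y, 4) = {(y, 3)} := by
  ext ⟨x, t⟩
  fin_cases t <;> simp [GG, EE, eq_comm]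

lemma nb5 (y : Z2) : GG.neighborSet (y, 5) = {(y, 3)} := by
  ext ⟨x, t⟩
  fin_cases t <;> simp [GG, EE, eq_comm]

lemma nb6 (y : Z2) : GG.neighborSet (y, 6) = {(y, 0)} := by
  ext ⟨x, t⟩
  fin_cases t <;> simp [GG, EE, eq_comm]

lemma dg_eq (y : Z2) (t : Fin 7) : dg GG (y, t) = (![5, 3, 2, 4, 1, 1, 1] t : ℕ) := by
  unfold dg
  fin_cases t
  · have := two_ne y y
    simp only [Fin.zero_eta, nb0]
    rw [encard_insert_of_notMem (by simp), encard_insert_of_notMem (by simp),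
      encard_insert_of_notMem (by simp), encard_pair (by simp)]
    rfl
  · simp only [Fin.mk_one, nb1]
    rw [encard_insert_of_notMem (by simp), encard_pair (by simp)]
    rfl
  · simp only [Fin.reduceFinMk, nb2]
    rw [encard_pair (by simp)]
    rfl
  · simp only [Fin.reduceFinMk, nb3]
    rw [encard_insert_of_notMem (by simp), encard_insert_of_notMem (by simp), encard_pair (by simp)]
    rfl
  · simp [nb4]
  · simp [nb5]
  · simp [nb6]

lemma dg_iff (u : XX) (n : ℕ) : dg GG u = n ↔ ![5, 3, 2, 4, 1, 1, 1] u.2 = n := by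
  obtain ⟨y, t⟩ := u
  rw [dg_eq, Nat.cast_inj]

lemma adj_iff (u v : XX) : GG.Adj u v ↔ v ∈ GG.neighborSet u := Iff.rfl

lemma Tr_iff (u v : XX) : Ed GG 2 u v ↔ u.2 = 0 ∧ v = (u.1 + 1, 0) := by
  obtain ⟨x, s⟩ := u
  constructor
  · rintro ⟨d1, d2, ⟨o, a⟩, a1, d3, ⟨q, b⟩, a2, d4, a3⟩
    rw [dg_iff] at d1 d2 d3 d4
    obtain rfl : s = 0 := by revert d1; fin_cases s <;> simp
    obtain rfl : a = 1 := by revert d3; fin_cases a <;> simp
    obtain rfl : b = 2 := by revert d4; fin_cases b <;> simp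
    rw [adj_iff, nb0] at a1
    rw [adj_iff, nb1] at a2
    rw [adj_iff, nb2] at a3
    simp at a1 a2
    subst a1 a2
    rcases a3 with rfl | h
    · simp at d2
    · exact ⟨rfl, h⟩
  · rintro ⟨h, rfl⟩
    simp only at h
    subst h
    refine ⟨dg_eq _ _, dg_eq _ _, (x, 1), ?_, dg_eq _ _, (x, 2), ?_, dg_eq _ _, ?_⟩ <;>
      simp [adj_iff, nb0, nb1, nb2]

lemma Pr_iff (u v : XX) : Ed GG 4 u v ↔ u.2 = 0 ∧ v = (hf u.1, 0) := by
  obtain ⟨x, s⟩ := u
  constructor
  · rintro ⟨d1, d2, ⟨o, a⟩, a1, d3, ⟨q, b⟩, a2, d4, a3⟩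
    rw [dg_iff] at d1 d2 d3 d4
    obtain rfl : s = 0 := by revert d1; fin_cases s <;> simp
    obtain rfl : a = 1 := by revert d3; fin_cases a <;> simp
    obtain rfl : b = 3 := by revert d4; fin_cases b <;> simp
    rw [adj_iff, nb0] at a1
    rw [adj_iff, nb1] at a2
    rw [adj_iff, nb3] at a3
    simp at a1 a2
    subst a1 a2
    rcases a3 with rfl | h | rfl | rfl
    · simp at d2
    · exact ⟨rfl, h⟩
    · simp at d2
    · simp at d2
  · rintro ⟨h, rfl⟩
    simp only at h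
    subst h
    refine ⟨dg_eq _ _, dg_eq _ _, (x, 1), ?_, dg_eq _ _, (x, 3), ?_, dg_eq _ _, ?_⟩ <;>
      simp [adj_iff, nb0, nb1, nb3]

lemma hf0 (y : Z2) : hf (2 * y) = y := ((hf_iff _ _).1 (Or.inl rfl)).symm
lemma hf1 (y : Z2) : hf (2 * y + 1) = y := ((hf_iff _ _).1 (Or.inr rfl)).symm

lemma valid_main (x : Z2) : Valid (Ed GG 2) (Ed GG 4) (x, 0) := by
  refine ⟨⟨(x + 1, 0), (Tr_iff _ _).2 ⟨rfl, rfl⟩, fun z hz => ((Tr_iff _ _).1 hz).2⟩,
    ⟨(x - 1, 0), (Tr_iff _ _).2 ⟨rfl, by simp⟩, fun ⟨z, t⟩ hz => ?_⟩,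
    fun y hy z hz => ((Pr_iff _ _).1 hz).2.trans ((Pr_iff _ _).1 hy).2.symm,
    ⟨(2 * x, 0), (Pr_iff _ _).2 ⟨rfl, by simp [hf0]⟩, (2 * x + 1, 0),
      (Pr_iff _ _).2 ⟨rfl, by simp [hf1]⟩, by simp⟩, fun y hy ⟨z, t⟩ hz => ?_, fun y hy => ?_⟩
  · obtain ⟨h1, h2⟩ := (Tr_iff _ _).1 hz
    simp only [Prod.mk.injEq, and_true] at h1 h2
    simp [h1, h2]
  · obtain ⟨_, rfl⟩ := (Pr_iff _ _).1 hy
    obtain ⟨h1, h2⟩ := (Pr_iff _ _).1 hz
    simp only [Prod.mk.injEq, and_true] at h1 h2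
    subst h1
    simp only [Tr_iff, Prod.mk.injEq, and_true, true_and]
    rcases (hf_iff x _).2 rfl with a | a <;> rcases (hf_iff z _).2 h2 with b | b
    · exact Or.inl (b.trans a.symm)
    · exact Or.inr (Or.inl (by linear_combination b - a))
    · exact Or.inr (Or.inr (by linear_combination a - b))
    · exact Or.inl (b.trans a.symm)
  · obtain ⟨_, rfl⟩ := (Tr_iff _ _).1 hy
    exact ⟨(2 * x + 1, 0), (Pr_iff _ _).2 ⟨rfl, by simp only [hf1]⟩, (2 * (x + 1), 0),
      (Pr_iff _ _).2 ⟨rfl, by simp only [hf0]⟩, (Tr_iff _ _).2 ⟨rfl, by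
        simp only [Prod.mk.injEq, and_true]; ring⟩⟩

noncomputable instance : MeasurableSpace Z2 := borel _
instance : BorelSpace Z2 := ⟨rfl⟩

noncomputable def mZ : Measure Z2 := Measure.addHaarMeasure ⊤

instance : mZ.IsAddHaarMeasure := by unfold mZ; infer_instance

instance : IsProbabilityMeasure mZ := ⟨by
  have := Measure.addHaarMeasure_self (K₀ := (⊤ : TopologicalSpace.PositiveCompacts Z2))
  unfold mZ
  simpa using this⟩

lemma dbl : ∃ c : ENNReal, c ≠ 0 ∧ ∀ S : Set Z2, mZ ((fun y => 2 * y) '' S) = c * mZ S := by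
  have he : MeasurableEmbedding fun y : Z2 => 2 * y :=
    (continuous_const.mul continuous_id).measurableEmbedding
      fun a b h => mul_left_cancel₀ two_ne_zero h
  haveI : (mZ.comap fun y : Z2 => 2 * y).IsAddLeftInvariant := by
    refine ⟨fun g => ?_⟩
    ext S hS
    rw [Measure.map_apply (measurable_const_add g) hS, he.comap_apply, he.comap_apply,
      ← measure_preimage_add mZ (2 * g) ((fun y => 2 * y) '' S)]
    congr 1
    ext z
    constructor
    · rintro ⟨y, hy, rfl⟩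
      exact ⟨g + y, hy, by simp only; ring⟩
    · rintro ⟨y, hy, e⟩
      exact ⟨y - g, by simpa using hy, by simp only at e ⊢; linear_combination e⟩
  haveI : IsFiniteMeasure (mZ.comap fun y : Z2 => 2 * y) :=
    ⟨by rw [he.comap_apply]; exact measure_lt_top _ _⟩
  have h := Measure.isAddLeftInvariant_eq_smul (mZ.comap fun y : Z2 => 2 * y) mZ
  have h2 : ∀ S : Set Z2, mZ ((fun y => 2 * y) '' S) =
      (Measure.addHaarScalarFactor (mZ.comap fun y : Z2 => 2 * y) mZ : ENNReal) * mZ S := by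
    intro S
    rw [← he.comap_apply]
    conv_lhs => rw [h]
    rfl
  refine ⟨_, fun h0 => ?_, h2⟩
  have h3 : mZ ((fun y => 2 * y) '' univ) = 0 := by rw [h2, h0, zero_mul]
  have h4 : mZ ((fun z => -1 + z) ⁻¹' ((fun y => 2 * y) '' univ)) = 0 := by
    rw [measure_preimage_add, h3]
  have h5 := measure_union_null h3 h4
  have : ((fun y : Z2 => 2 * y) '' univ) ∪ (fun z => -1 + z) ⁻¹' ((fun y => 2 * y) '' univ) =
      univ := by
    refine eq_univ_of_forall fun x => ?_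
    obtain ⟨y, h | h⟩ := ex_half x
    · exact Or.inl ⟨y, trivial, h.symm⟩
    · exact Or.inr ⟨y, trivial, by simp only; linear_combination -h⟩
  rw [this, measure_univ] at h5
  exact one_ne_zero h5

lemma null_img {S : Set Z2} (h : mZ S = 0) : mZ ((fun y => 2 * y) '' S) = 0 := by
  obtain ⟨c, _, hc⟩ := dbl
  rw [hc, h, mul_zero]

lemma null_pre {S : Set Z2} (h : mZ S = 0) : mZ ((fun y => 2 * y) ⁻¹' S) = 0 := by
  obtain ⟨c, h0, hc⟩ := dbl
  have := measure_mono_null (image_preimage_subset (fun y => 2 * y) S) h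
  rw [hc] at this
  exact (mul_eq_zero.1 this).resolve_left h0

lemma null_add {S : Set Z2} (h : mZ S = 0) (g : Z2) : mZ ((fun y => g + y) ⁻¹' S) = 0 := by
  rw [measure_preimage_add, h]

noncomputable def mX : Measure XX :=
  ∑ t : Fin 7, (7⁻¹ : ENNReal) • Measure.map (fun x => (x, t)) mZ

lemma mX_apply (A : Set XX) : mX A = ∑ t : Fin 7, 7⁻¹ * mZ ((fun x => (x, t)) ⁻¹' A) := by
  unfold mX
  rw [Measure.finset_sum_apply]
  refine Finset.sum_congr rfl fun t _ => ?_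
  rw [Measure.smul_apply, (measurableEmbedding_prod_mk_right t).map_apply, smul_eq_mul]

lemma mX_null (A : Set XX) : mX A = 0 ↔ mZ {x | ∃ t, (x, t) ∈ A} = 0 := by
  rw [mX_apply, Finset.sum_eq_zero_iff, setOf_exists, measure_iUnion_null_iff]
  simp only [Finset.mem_univ, forall_true_left, mul_eq_zero, ENNReal.inv_eq_zero,
    ENNReal.ofNat_ne_top, false_or]
  rfl

lemma ex_measured (Δ : ℕ) (hΔ : 5 ≤ Δ) : IsMeasuredGraph Δ mX GG := by
  refine ⟨⟨?_⟩, ?_, fun ⟨x, t⟩ => ?_, fun A hA => ?_⟩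
  · rw [mX_apply]
    simp only [preimage_univ, measure_univ, mul_one, Finset.sum_const, Finset.card_univ,
      Fintype.card_fin, nsmul_eq_mul]
    exact ENNReal.mul_inv_cancel (by norm_num) (by norm_num)
  · have mE : ∀ {β : Type} [MeasurableSpace β] [MeasurableEq β] {a b : XX × XX → β},
        Measurable a → Measurable b → Measurable fun q => a q = b q := fun ha hb =>
      measurableSet_setOfPred.1 (measurableSet_eq_fun ha hb)
    have : Measurable fun p : XX × XX => EE p.1 p.2 := by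
      unfold EE
      repeat' first
        | apply Measurable.or
        | apply Measurable.and
        | exact mE (by fun_prop) (by fun_prop)
    exact (this.or (this.comp measurable_swap)).setOf
  · have := dg_eq x t
    unfold dg at this
    rw [this]
    have : (![5, 3, 2, 4, 1, 1, 1] t : ℕ) ≤ Δ := by fin_cases t <;> simp <;> omega
    exact_mod_cast this
  · let N : ℕ → Set Z2 := fun n => {x | ∃ t, ∃ y ∈ A, ∃ w : GG.Walk (x, t) y, w.length = n}
    have hN : ∀ n, mZ (N n) = 0 := by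
      intro n
      induction n with
      | zero =>
        refine measure_mono_null ?_ ((mX_null A).1 hA)
        rintro x ⟨t, y, hy, w, hw⟩
        exact ⟨t, by rw [SimpleGraph.Walk.eq_of_length_eq_zero hw]; exact hy⟩
      | succ n ih =>
        refine measure_mono_null ?_ (measure_union_null ih (measure_union_null (null_add ih 1)
          (measure_union_null (null_add ih (-1)) (measure_union_null (null_pre ih)
            (measure_union_null (null_pre (null_add ih 1)) (measure_union_null (null_img ih)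
              (null_add (null_img ih) (-1))))))))
        rintro x ⟨t, y, hy, w, hw⟩
        cases w with
        | nil => simp at hw
        | @cons _ v _ h w =>
          obtain ⟨z, s⟩ := v
          have hz : z ∈ N n := ⟨s, y, hy, w, by simpa using hw⟩
          simp only [mem_union, mem_preimage, mem_image]
          rcases h with (⟨h, _⟩ | ⟨h, _⟩ | ⟨h | h, _⟩) | (⟨h, _⟩ | ⟨h, _⟩ | ⟨h | h, _⟩) <;>
            simp only at h
          · exact Or.inl (h ▸ hz)
          · exact Or.inr (Or.inl (by rwa [add_comm, ← h]))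
          · exact Or.inr (Or.inr (Or.inr (Or.inr (Or.inr (Or.inl ⟨z, hz, h.symm⟩)))))
          · exact Or.inr (Or.inr (Or.inr (Or.inr (Or.inr (Or.inr
              ⟨z, hz, by linear_combination -h⟩)))))
          · exact Or.inl (h ▸ hz)
          · exact Or.inr (Or.inr (Or.inl (by rwa [h, add_comm z, neg_add_cancel_left])))
          · exact Or.inr (Or.inr (Or.inr (Or.inl (h ▸ hz))))
          · exact Or.inr (Or.inr (Or.inr (Or.inr (Or.inl (by rwa [add_comm, ← h])))))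
    rw [mX_null]
    refine measure_mono_null ?_ (measure_iUnion_null hN)
    rintro x ⟨t, y, hy, ⟨w⟩⟩
    exact mem_iUnion.2 ⟨_, t, y, hy, w, rfl⟩

lemma erg (n : ℕ) (hn : Odd n) : Ergodic (fun x : Z2 => (n : Z2) + x) mZ := by
  refine ergodic_add_left_of_denseRange_zsmul ?_ mZ
  have hu : IsUnit (n : Z2) := by
    rw [PadicInt.isUnit_iff, PadicInt.norm_natCast_eq_one_iff]
    exact hn.coprime_two_left
  obtain ⟨u, hu⟩ := hu
  have hs : Function.Surjective fun x : Z2 => x * n := fun y => ⟨y * ↑u⁻¹, by simp [← hu]⟩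
  have := hs.denseRange.comp (PadicInt.denseRange_intCast (p := 2))
    (continuous_id.mul continuous_const)
  convert this using 1
  funext k
  simp

theorem ex_unsolv : ¬ Solvable 10 PP mX GG := by
  rintro ⟨c, hc, h⟩
  have hfin : ∀ u, (GG.neighborSet u).Finite := fun u =>
    finite_of_encard_le_coe ((ex_measured 5 le_rfl).2.2.1 u)
  let l : Z2 → ℕ := fun x => (c (x, 0)).val
  have ml : Measurable l := (Measurable.of_discrete (f := Fin.val)).comp
    (hc.comp (measurable_id.prodMk measurable_const))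
  have hl : ∀ x, l x < 12 := fun x => (c (x, 0)).2
  have h1 : ∀ᵐ x ∂mZ, (l x / 6 = l (1 + x) / 6 ∧
      (l x / 6 = 1 → l (1 + x) % 6 / 2 = (l x % 6 / 2 + 1) % 3) ∧
      (l x / 6 = 0 → l x % 2 = l (1 + x) % 2)) ∧ (l x / 6 = 0 → l x % 2 ≠ l (hf x) % 2) := by
    have : ∀ᵐ x ∂mZ, SatAt 10 PP GG c (x, 0) :=
      measure_mono_null (fun x hx => show ∃ t, (x, t) ∈ {v | SatAt 10 PP GG c v}ᶜ from ⟨0, hx⟩)
        ((mX_null {v | SatAt 10 PP GG c v}ᶜ).1 h)
    filter_upwards [this] with x hx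
    obtain ⟨a, b⟩ := (sat_iff GG hfin c _).1 hx (valid_main x)
    exact ⟨a (1 + x, 0) ((Tr_iff _ _).2 ⟨rfl, by rw [add_comm]⟩) (valid_main _),
      fun h0 => b h0 _ ((Pr_iff _ _).2 ⟨rfl, rfl⟩)⟩
  have e1 : Ergodic (fun x : Z2 => 1 + x) mZ := by simpa using erg 1 odd_one
  have e3 : Ergodic (fun x : Z2 => 1 + (1 + (1 + x))) mZ := by
    convert erg 3 (by decide) using 2
    push_cast
    ring
  have cst : ∀ {T : Z2 → Z2}, Ergodic T mZ → ∀ φ : ℕ → ℕ, (∀ᵐ x ∂mZ, φ (l (T x)) = φ (l x)) →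
      ∃ k, ∀ᵐ x ∂mZ, φ (l x) = k := fun hT φ hφ =>
    hT.quasiErgodic.ae_eq_const_of_ae_eq_comp₀
      ((Measurable.of_discrete (f := φ)).comp ml).nullMeasurable hφ
  have q1 := e1.toMeasurePreserving.quasiMeasurePreserving
  obtain ⟨k, hk⟩ := cst e1 (· / 6) (h1.mono fun x hx => hx.1.1.symm)
  obtain ⟨x0, hx0⟩ := hk.exists
  have := hl x0
  have hk' : k = 0 ∨ k = 1 := by omega
  rcases hk' with rfl | rfl
  · obtain ⟨j, hj⟩ := cst e1 (· % 2) ((h1.and hk).mono fun x hx => (hx.1.1.2.2 hx.2).symm)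
    have h2 : ∀ᵐ y ∂mZ, l (2 * y) % 2 = j ∧ l (2 * y) % 2 ≠ l (hf (2 * y)) % 2 :=
      null_pre (S := {x | ¬ (l x % 2 = j ∧ l x % 2 ≠ l (hf x) % 2)})
        ((hj.and (h1.and hk)).mono fun x hx => ⟨hx.1, hx.2.1.2 hx.2.2⟩)
    obtain ⟨y, a, b⟩ := (hj.and h2).exists
    rw [hf0] at b
    omega
  · have h2 : ∀ᵐ x ∂mZ, l (1 + x) % 6 / 2 = (l x % 6 / 2 + 1) % 3 :=
      (h1.and hk).mono fun x hx => hx.1.1.2.1 hx.2
    obtain ⟨j, hj⟩ := cst e3 (· % 6 / 2) (by
      filter_upwards [h2, q1.ae h2, q1.ae (q1.ae h2)] with x a b c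
      omega)
    obtain ⟨y, a, b, c⟩ := (hj.and ((q1.ae hj).and h2)).exists
    omega

end Pool.Agent.H.MP_bf3dd3_lc
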