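import Pool.Agent.H.MP_bf3dd3_lc.Abs
import Pool.Agent.H.MP_bf3dd3_lc.Defs

set_option autoImplicit false

namespace Pool.Agent.H.MP_bf3dd3_lc
open MeasureTheory Set

section
variable {V W : Type} {Tr Pr : V → V → Prop} {Tr' Pr' : W → W → Prop} {e : W → V}
  {N : ℕ → V → Prop}

lemma valid_iff (he : Function.Injective e)
    (h1 : ∀ s x y, N s x → Tr x y ∨ Tr y x ∨ Pr x y ∨ Pr y x → N (s + 1) y)
    (h2 : ∀ s y, s ≤ 3 → N s y → ∃ b, e b = y)
    (h3 : ∀ s a b, s ≤ 2 → N s (e a) → (Tr' a b ↔ Tr (e a) (e b)) ∧ (Tr' b a ↔ Tr (e b) (e a)) ∧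
      (Pr' a b ↔ Pr (e a) (e b)) ∧ (Pr' b a ↔ Pr (e b) (e a)))
    (s : ℕ) (hs : s ≤ 1) (a : W) (ha : N s (e a)) : Valid Tr' Pr' a ↔ Valid Tr Pr (e a) := by
  have A := fun b => h3 s a b (by omega) ha
  have n1 : ∀ y, Tr (e a) y ∨ Tr y (e a) ∨ Pr (e a) y ∨ Pr y (e a) → N (s + 1) y :=
    fun y h => h1 s _ y ha h
  have l1 : ∀ y, Tr (e a) y ∨ Tr y (e a) ∨ Pr (e a) y ∨ Pr y (e a) → ∃ b, e b = y :=
    fun y h => h2 _ y (by omega) (n1 y h)
  have l2 : ∀ y z, N (s + 1) y → Pr z y → ∃ b, e b = z :=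
    fun y z h h' => h2 _ z (by omega) (h1 _ y z h (Or.inr (Or.inr (Or.inr h'))))
  have Bq := fun b c (h : N (s + 1) (e b)) => h3 (s + 1) b c (by omega) h
  constructor
  · rintro ⟨⟨y1, a1, a2⟩, ⟨y2, b1, b2⟩, p1, ⟨u, c1, u', c2, c3⟩, sb, cs⟩
    refine ⟨⟨e y1, (A _).1.1 a1, fun z hz => ?_⟩, ⟨e y2, (A _).2.1.1 b1, fun z hz => ?_⟩,
      fun y hy z hz => ?_, ⟨e u, (A _).2.2.2.1 c1, e u', (A _).2.2.2.1 c2, he.ne c3⟩,
      fun y hy z hz => ?_, fun y hy => ?_⟩
    · obtain ⟨b, rfl⟩ := l1 z (Or.inl hz)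
      rw [a2 b ((A _).1.2 hz)]
    · obtain ⟨b, rfl⟩ := l1 z (Or.inr (Or.inl hz))
      rw [b2 b ((A _).2.1.2 hz)]
    · obtain ⟨b, rfl⟩ := l1 y (Or.inr (Or.inr (Or.inl hy)))
      obtain ⟨c, rfl⟩ := l1 z (Or.inr (Or.inr (Or.inl hz)))
      rw [p1 b ((A _).2.2.1.2 hy) c ((A _).2.2.1.2 hz)]
    · have n := n1 y (Or.inr (Or.inr (Or.inl hy)))
      obtain ⟨b, rfl⟩ := l1 y (Or.inr (Or.inr (Or.inl hy)))
      obtain ⟨c, rfl⟩ := l2 _ z n hz
      rcases sb b ((A _).2.2.1.2 hy) c ((Bq b c n).2.2.2.2 hz) with h | h | h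
      · exact Or.inl (congrArg e h)
      · exact Or.inr (Or.inl ((A _).1.1 h))
      · exact Or.inr (Or.inr ((A _).2.1.1 h))
    · have n := n1 y (Or.inl hy)
      obtain ⟨b, rfl⟩ := l1 y (Or.inl hy)
      obtain ⟨u, d1, w, d2, d3⟩ := cs b ((A _).1.2 hy)
      have d1' := (A _).2.2.2.1 d1
      exact ⟨e u, d1', e w, (Bq b w n).2.2.2.1 d2,
        (Bq u w (n1 _ (Or.inr (Or.inr (Or.inr d1'))))).1.1 d3⟩
  · rintro ⟨⟨y1, a1, a2⟩, ⟨y2, b1, b2⟩, p1, ⟨u, c1, u', c2, c3⟩, sb, cs⟩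
    obtain ⟨y1, rfl⟩ := l1 y1 (Or.inl a1)
    obtain ⟨y2, rfl⟩ := l1 y2 (Or.inr (Or.inl b1))
    obtain ⟨u, rfl⟩ := l1 u (Or.inr (Or.inr (Or.inr c1)))
    obtain ⟨u', rfl⟩ := l1 u' (Or.inr (Or.inr (Or.inr c2)))
    refine ⟨⟨y1, (A _).1.2 a1, fun z hz => he (a2 _ ((A _).1.1 hz))⟩,
      ⟨y2, (A _).2.1.2 b1, fun z hz => he (b2 _ ((A _).2.1.1 hz))⟩,
      fun y hy z hz => he (p1 _ ((A _).2.2.1.1 hy) _ ((A _).2.2.1.1 hz)),
      ⟨u, (A _).2.2.2.2 c1, u', (A _).2.2.2.2 c2, fun h => c3 (congrArg e h)⟩,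
      fun y hy z hz => ?_, fun y hy => ?_⟩
    · have hy' := (A _).2.2.1.1 hy
      have n := n1 _ (Or.inr (Or.inr (Or.inl hy')))
      rcases sb _ hy' _ ((Bq y z n).2.2.2.1 hz) with h | h | h
      · exact Or.inl (he h)
      · exact Or.inr (Or.inl ((A _).1.2 h))
      · exact Or.inr (Or.inr ((A _).2.1.2 h))
    · have hy' := (A _).1.1 hy
      have n := n1 _ (Or.inl hy')
      obtain ⟨u, d1, w, d2, d3⟩ := cs _ hy'
      have n' := n1 _ (Or.inr (Or.inr (Or.inr d1)))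
      obtain ⟨u, rfl⟩ := l1 u (Or.inr (Or.inr (Or.inr d1)))
      obtain ⟨w, rfl⟩ := l2 _ w n d2
      exact ⟨u, (A _).2.2.2.2 d1, w, (Bq y w n).2.2.2.2 d2, (Bq u w n').1.2 d3⟩

lemma Q_iff (he : Function.Injective e)
    (h1 : ∀ s x y, N s x → Tr x y ∨ Tr y x ∨ Pr x y ∨ Pr y x → N (s + 1) y)
    (h2 : ∀ s y, s ≤ 3 → N s y → ∃ b, e b = y)
    (h3 : ∀ s a b, s ≤ 2 → N s (e a) → (Tr' a b ↔ Tr (e a) (e b)) ∧ (Tr' b a ↔ Tr (e b) (e a)) ∧
      (Pr' a b ↔ Pr (e a) (e b)) ∧ (Pr' b a ↔ Pr (e b) (e a)))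
    (c : V → Fin 12) (a : W) (ha : N 0 (e a)) : Q Tr' Pr' (c ∘ e) a ↔ Q Tr Pr c (e a) := by
  have A := fun b => h3 0 a b (by omega) ha
  have v0 := valid_iff he h1 h2 h3 0 (by omega) a ha
  have v1 := fun b (h : Tr (e a) (e b)) => valid_iff he h1 h2 h3 1 le_rfl b (h1 0 _ _ ha (Or.inl h))
  unfold Q
  rw [v0]
  refine imp_congr_right fun _ => and_congr ⟨fun h y hy hv => ?_, fun h y hy hv => ?_⟩
    (imp_congr_right fun _ => ⟨fun h y hy => ?_, fun h y hy => h _ ((A _).2.2.1.1 hy)⟩)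
  · obtain ⟨b, rfl⟩ := h2 1 y (by omega) (h1 0 _ _ ha (Or.inl hy))
    exact h b ((A _).1.2 hy) ((v1 b hy).2 hv)
  · exact h _ ((A _).1.1 hy) ((v1 y ((A _).1.1 hy)).1 hv)
  · obtain ⟨b, rfl⟩ := h2 1 y (by omega) (h1 0 _ _ ha (Or.inr (Or.inr (Or.inl hy))))
    exact h b ((A _).2.2.1.2 hy)

end

noncomputable def dg {V : Type} (H : SimpleGraph V) (v : V) : ℕ∞ := (H.neighborSet v).encard

def Ed {V : Type} (H : SimpleGraph V) (d : ℕ) (x y : V) : Prop :=
  dg H x = (5 : ℕ) ∧ dg H y = (5 : ℕ) ∧ ∃ o, H.Adj x o ∧ dg H o = (3 : ℕ) ∧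
    ∃ q, H.Adj o q ∧ dg H q = d ∧ H.Adj q y

lemma Ed.reach {V : Type} {H : SimpleGraph V} {d : ℕ} {x y : V} (h : Ed H d x y) :
    H.Reachable x y := by
  obtain ⟨_, _, o, a, _, q, b, _, c⟩ := h
  exact a.reachable.trans (b.reachable.trans c.reachable)

lemma near_adj {V : Type} {H : SimpleGraph V} {v x y : V} {s : ℕ} (h : H.edist v x ≤ s)
    (a : H.Adj x y) : H.edist v y ≤ (s + 1 : ℕ) := by
  refine (H.edist_triangle (v := x)).trans ?_
  rw [SimpleGraph.edist_eq_one_iff_adj.2 a]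
  push_cast
  gcongr

lemma QG_comap {V W : Type} (H : SimpleGraph V) (c : V → Fin 12) (e : W → V)
    (he : Function.Injective e) (a : W)
    (hr : Set.range e = {w | H.edist (e a) w ≤ ((10 : ℕ) : ℕ∞)}) :
    Q (Ed (H.comap e) 2) (Ed (H.comap e) 4) (c ∘ e) a ↔ Q (Ed H 2) (Ed H 4) c (e a) := by
  have lift : ∀ (s : ℕ) y, s ≤ 10 → H.edist (e a) y ≤ s → ∃ b, e b = y := by
    intro s y hs h
    have : y ∈ Set.range e := by
      rw [hr]
      exact h.trans (by exact_mod_cast hs)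
    exact this
  have hdg : ∀ (s : ℕ) b, s ≤ 9 → H.edist (e a) (e b) ≤ s → dg (H.comap e) b = dg H (e b) := by
    intro s b hs h
    unfold dg
    have : (H.comap e).neighborSet b = e ⁻¹' H.neighborSet (e b) := rfl
    rw [this]
    exact encard_preimage_of_injective_subset_range he fun y hy =>
      lift (s + 1) y (by omega) (near_adj h hy)
  have n1 : ∀ (d s : ℕ) x y, Ed H d x y → H.edist (e a) x ≤ s → H.edist (e a) y ≤ (s + 3 : ℕ) := by
    rintro d s x y ⟨_, _, o, a1, _, q, a2, _, a3⟩ h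
    exact near_adj (near_adj (near_adj h a1) a2) a3
  have n2 : ∀ (d s : ℕ) x y, Ed H d y x → H.edist (e a) x ≤ s → H.edist (e a) y ≤ (s + 3 : ℕ) := by
    rintro d s x y ⟨_, _, o, a1, _, q, a2, _, a3⟩ h
    exact near_adj (near_adj (near_adj h a3.symm) a2.symm) a1.symm
  have i1 : ∀ (d s : ℕ) b b', s ≤ 6 → H.edist (e a) (e b) ≤ s →
      (Ed (H.comap e) d b b' ↔ Ed H d (e b) (e b')) := by
    intro d s b b' hs h
    constructor
    · rintro ⟨d1, d2, o, a1, d3, q, a2, d4, a3⟩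
      have m1 := near_adj h a1
      have m2 := near_adj m1 a2
      have m3 := near_adj m2 a3
      exact ⟨hdg _ _ (by omega) h ▸ d1, hdg _ _ (by omega) m3 ▸ d2, e o, a1,
        hdg _ _ (by omega) m1 ▸ d3, e q, a2, hdg _ _ (by omega) m2 ▸ d4, a3⟩
    · rintro ⟨d1, d2, o, a1, d3, q, a2, d4, a3⟩
      have m1 := near_adj h a1
      have m2 := near_adj m1 a2
      have m3 := near_adj m2 a3
      obtain ⟨o, rfl⟩ := lift _ o (by omega) m1
      obtain ⟨q, rfl⟩ := lift _ q (by omega) m2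
      exact ⟨(hdg _ _ (by omega) h).trans d1, (hdg _ _ (by omega) m3).trans d2, o, a1,
        (hdg _ _ (by omega) m1).trans d3, q, a2, (hdg _ _ (by omega) m2).trans d4, a3⟩
  have i2 : ∀ (d s : ℕ) b b', s ≤ 6 → H.edist (e a) (e b) ≤ s →
      (Ed (H.comap e) d b' b ↔ Ed H d (e b') (e b)) := by
    intro d s b b' hs h
    constructor
    · rintro ⟨d1, d2, o, a1, d3, q, a2, d4, a3⟩
      have m1 := near_adj h (show H.Adj (e q) (e b) from a3).symm
      have m2 := near_adj m1 (show H.Adj (e o) (e q) from a2).symm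
      have m3 := near_adj m2 (show H.Adj (e b') (e o) from a1).symm
      exact ⟨hdg _ _ (by omega) m3 ▸ d1, hdg _ _ (by omega) h ▸ d2, e o, a1,
        hdg _ _ (by omega) m2 ▸ d3, e q, a2, hdg _ _ (by omega) m1 ▸ d4, a3⟩
    · rintro ⟨d1, d2, o, a1, d3, q, a2, d4, a3⟩
      have m1 := near_adj h a3.symm
      have m2 := near_adj m1 a2.symm
      have m3 := near_adj m2 a1.symm
      obtain ⟨o, rfl⟩ := lift _ o (by omega) m2
      obtain ⟨q, rfl⟩ := lift _ q (by omega) m1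
      exact ⟨(hdg _ _ (by omega) m3).trans d1, (hdg _ _ (by omega) h).trans d2, o, a1,
        (hdg _ _ (by omega) m2).trans d3, q, a2, (hdg _ _ (by omega) m1).trans d4, a3⟩
  refine Q_iff (N := fun s y => H.edist (e a) y ≤ (3 * s : ℕ)) he (fun s x y h hxy => ?_)
    (fun s y hs h => lift _ y (by omega) h)
    (fun s b b' hs h => ⟨i1 _ _ b b' (by omega) h, i2 _ _ b b' (by omega) h,
      i1 _ _ b b' (by omega) h, i2 _ _ b b' (by omega) h⟩) c a (by simp)
  rcases hxy with hxy | hxy | hxy | hxy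
  · exact n1 _ _ x y hxy h
  · exact n2 _ _ x y hxy h
  · exact n1 _ _ x y hxy h
  · exact n2 _ _ x y hxy h

def PP : Balls 12 := fun _ G c => Q (Ed G 2) (Ed G 4) c 0

lemma ball_fin {V : Type} (H : SimpleGraph V) (hf : ∀ x, (H.neighborSet x).Finite) (v : V) (r : ℕ) :
    {w | H.edist v w ≤ (r : ℕ∞)}.Finite := by
  induction r with
  | zero =>
    refine (finite_singleton v).subset fun w hw => ?_
    have : H.edist v w = 0 := nonpos_iff_eq_zero.1 (by exact_mod_cast hw)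
    exact (SimpleGraph.edist_eq_zero_iff.1 this).symm
  | succ r ih =>
    refine (ih.union (ih.biUnion fun u _ => hf u)).subset fun w hw => ?_
    have hne : H.edist w v ≠ ⊤ := by
      rw [SimpleGraph.edist_comm]
      exact ne_top_of_le_ne_top (ENat.coe_ne_top _) hw
    obtain ⟨p, hp⟩ := SimpleGraph.exists_walk_of_edist_ne_top hne
    cases p with
    | nil => exact Or.inl (by simp)
    | cons h p =>
      refine Or.inr (mem_biUnion ?_ h.symm)
      have h1 := SimpleGraph.edist_le p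
      rw [SimpleGraph.edist_comm] at h1 hp
      have h2 : ((p.length + 1 : ℕ) : ℕ∞) ≤ (r + 1 : ℕ) := by
        rw [← SimpleGraph.Walk.length_cons h p, hp]
        exact hw
      exact h1.trans (by exact_mod_cast (by exact_mod_cast h2 : p.length + 1 ≤ r + 1) |>
        Nat.le_of_succ_le_succ)

lemma ex_enum {V : Type} (S : Set V) (hS : S.Finite) (v : V) (hv : v ∈ S) :
    ∃ n : ℕ, ∃ e : Fin (n + 1) → V, Function.Injective e ∧ e 0 = v ∧ Set.range e = S := by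
  obtain ⟨m, t, h1, h2⟩ := hS.fin_param
  obtain ⟨i, rfl⟩ : v ∈ range t := h2 ▸ hv
  cases m with
  | zero => exact i.elim0
  | succ n =>
    exact ⟨n, t ∘ Equiv.swap 0 i, h1.comp (Equiv.swap _ _).injective, by simp,
      by rw [(Equiv.swap 0 i).surjective.range_comp, h2]⟩

lemma sat_iff {V : Type} (H : SimpleGraph V) (hf : ∀ x, (H.neighborSet x).Finite)
    (c : V → Fin 12) (v : V) : SatAt 10 PP H c v ↔ Q (Ed H 2) (Ed H 4) c v := by
  constructor
  · rintro ⟨n, e, he, rfl, hr, h⟩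
    exact (QG_comap H c e he 0 hr).1 h
  · intro h
    obtain ⟨n, e, he, rfl, hr⟩ := ex_enum _ (ball_fin H hf v 10) v (by simp)
    exact ⟨n, e, he, rfl, hr, (QG_comap H c e he 0 hr).2 h⟩

theorem pmp_side {X : Type} [MeasurableSpace X] [StandardBorelSpace X] (Δ : ℕ) (μ : Measure X)
    (G : SimpleGraph X) (h : IsMeasuredGraph Δ μ G) (mtp : MassTransport μ G) :
    Solvable 10 PP μ G := by
  obtain ⟨hμ, hG, hd, _⟩ := h
  obtain ⟨g, hg, hR⟩ := ex_cover G hG Δ hd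
  have hA : Measurable fun p : X × X => G.Adj p.1 p.2 := measurableSet_setOfPred.1 hG
  have mA : ∀ {Y : Type} [MeasurableSpace Y] {a b : Y → X}, Measurable a → Measurable b →
      Measurable fun q => G.Adj (a q) (b q) := fun ha hb => hA.comp (ha.prodMk hb)
  have hle : ∀ n : ℕ, Measurable fun x => (n : ℕ∞) ≤ dg G x := by
    intro n
    have : (fun x => (n : ℕ∞) ≤ dg G x) = fun x => ∃ t : Fin n → ℕ,
        (∀ i, G.Adj x (g (t i) x)) ∧ ∀ i j, g (t i) x = g (t j) x → i = j := by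
      funext x
      apply propext
      constructor
      · intro h
        obtain ⟨S, h1, h2⟩ := exists_subset_encard_eq h
        obtain ⟨t, h3, rfl⟩ := fin_param' h2
        choose u hu using fun i => hR x (t i) (h1 (mem_range_self i)).reachable
        exact ⟨u, fun i => by rw [hu]; exact h1 (mem_range_self i), fun i j => by
          rw [hu, hu]; exact fun e => h3 e⟩
      · rintro ⟨t, h1, h2⟩
        rw [← encard_range_fin (t := fun i => g (t i) x) h2]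
        exact encard_le_encard (range_subset_iff.2 h1)
    rw [this]
    exact Measurable.exists fun t => (Measurable.forall fun i => mA measurable_id (hg _)).and
      (Measurable.forall fun i => Measurable.forall fun j =>
        (measurableSet_setOfPred.1 (measurableSet_eq_fun (hg _) (hg _))).imp measurable_const)
  have hdg : ∀ n : ℕ, Measurable fun x => dg G x = n := by
    intro n
    convert (hle n).and (hle (n + 1)).not using 2 with x
    push_cast
    rw [ENat.add_one_le_iff (ENat.coe_ne_top n), not_lt, le_antisymm_iff, and_comm]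
  have hE : ∀ d : ℕ, Measurable fun p : X × X => Ed G d p.1 p.2 := fun d =>
    ((hdg 5).comp measurable_fst).and (((hdg 5).comp measurable_snd).and
      (mex hg hR Prod.fst measurable_fst (fun r : (X × X) × X => G.Adj r.1.1 r.2 ∧
        dg G r.2 = (3 : ℕ) ∧ ∃ q, G.Adj r.2 q ∧ dg G q = d ∧ G.Adj q r.1.2)
        ((mA (by fun_prop) (by fun_prop)).and (((hdg 3).comp measurable_snd).and
          (mex hg hR Prod.snd measurable_snd (fun s : ((X × X) × X) × X => G.Adj s.1.2 s.2 ∧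
            dg G s.2 = d ∧ G.Adj s.2 s.1.1.2) ((mA (by fun_prop) (by fun_prop)).and
              (((hdg d).comp measurable_snd).and (mA (by fun_prop) (by fun_prop))))
            fun s h => h.1.reachable))) fun r h => h.1.reachable))
  obtain ⟨c, hc, hQ⟩ := solve μ hg hR (fun _ _ h => h.symm) (hE 2) (hE 4) (fun _ _ h => h.reach)
    (fun _ _ h => h.reach) mtp
  exact ⟨c, hc, hQ.mono fun x hx =>
    (sat_iff G (fun x => finite_of_encard_le_coe (hd x)) c x).2 hx⟩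

end Pool.Agent.H.MP_bf3dd3_lc
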