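import Mathlib

set_option autoImplicit false

namespace Pool.Agent.H.MP_bf3dd3_lc
open MeasureTheory Set

variable {X : Type} [MeasurableSpace X] [StandardBorelSpace X]

lemma encard_range_fin {α : Type} {n : ℕ} {t : Fin n → α} (h : Function.Injective t) :
    (range t).encard = n := by
  rw [← image_univ, h.encard_image]
  simp

lemma fin_param' {α : Type} {n : ℕ} {s : Set α} (h : s.encard = n) :
    ∃ t : Fin n → α, Function.Injective t ∧ range t = s := by
  obtain ⟨m, t, h1, h2⟩ := (finite_of_encard_eq_coe h).fin_param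
  have := encard_range_fin h1
  rw [h2, h] at this
  obtain rfl : n = m := by exact_mod_cast this
  exact ⟨t, h1, h2⟩

lemma unif_graph (B : Set (X × X)) (hB : MeasurableSet B) (hi : InjOn Prod.fst B) :
    ∃ g : X → X, Measurable g ∧ ∀ x y, (x, y) ∈ B → g x = y := by
  haveI := hB.standardBorel
  have he : MeasurableEmbedding fun p : B => p.1.1 :=
    (measurable_fst.comp measurable_subtype_coe).measurableEmbedding
      fun p q h => Subtype.ext (hi p.2 q.2 h)
  refine ⟨Function.extend (fun p : B => p.1.1) (fun p => p.1.2) id,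
    he.measurable_extend (measurable_snd.comp measurable_subtype_coe) measurable_id,
    fun x y h => ?_⟩
  exact he.injective.extend_apply (fun p : B => p.1.2) id ⟨(x, y), h⟩

theorem lusin_novikov (n : ℕ) : ∀ A : Set (X × X), MeasurableSet A →
    (∀ x, {y | (x, y) ∈ A}.encard ≤ n) →
    ∃ g : Fin n → X → X, (∀ i, Measurable (g i)) ∧ ∀ x y, (x, y) ∈ A → ∃ i, g i x = y := by
  induction n with
  | zero =>
    intro A _ h
    refine ⟨Fin.elim0, fun i => i.elim0, fun x y hxy => ?_⟩
    have := h x
    simp only [CharP.cast_eq_zero, nonpos_iff_eq_zero, encard_eq_zero] at this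
    exact absurd (this ▸ hxy : y ∈ (∅ : Set X)) (notMem_empty y)
  | succ n ih =>
    intro A hA h
    letI := upgradeStandardBorel X
    obtain ⟨φ, hφ⟩ := exists_measurableEmbedding_real X
    let S : Set ((X × X) × (Fin n → X)) := {p | p.1 ∈ A ∧ (∀ i, (p.1.1, p.2 i) ∈ A ∧
      φ p.1.2 < φ (p.2 i)) ∧ ∀ i j, p.2 i = p.2 j → i = j}
    have hS : MeasurableSet S := by
      refine Measurable.setOf ((measurableSet_setOfPred.1 (measurable_fst hA)).and
        (Measurable.and (Measurable.forall fun i => Measurable.and ?_ ?_)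
          (Measurable.forall fun i => Measurable.forall fun j => Measurable.imp ?_
            measurable_const)))
      · exact measurableSet_setOfPred.1 ((by fun_prop : Measurable
          fun p : (X × X) × (Fin n → X) => (p.1.1, p.2 i)) hA)
      · exact measurableSet_setOfPred.1 (measurableSet_lt (hφ.measurable.comp (by fun_prop))
          (hφ.measurable.comp (by fun_prop)))
      · exact measurableSet_setOfPred.1 (measurableSet_eq_fun (by fun_prop) (by fun_prop))
    have huniq : ∀ p ∈ S, ∀ y, (p.1.1, y) ∈ A → φ p.1.2 ≤ φ y := by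
      rintro ⟨⟨x, z⟩, t⟩ ⟨h1, h2, h3⟩ y hy
      by_contra hc
      have hsub : insert y (insert z (range t)) ⊆ {y | (x, y) ∈ A} := by
        rintro w (rfl | rfl | ⟨i, rfl⟩)
        · exact hy
        · exact h1
        · exact (h2 i).1
      have hz : z ∉ range t := fun ⟨i, e⟩ => by
        have := (h2 i).2
        simp only [e, lt_self_iff_false] at this
      have hy' : y ∉ insert z (range t) := by
        rintro (rfl | ⟨i, rfl⟩)
        · exact hc le_rfl
        · exact hc (h2 i).2.le
      have := (encard_le_encard hsub).trans (h x)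
      rw [encard_insert_of_notMem hy', encard_insert_of_notMem hz,
        encard_range_fin h3] at this
      norm_cast at this
      omega
    have hsep : ∀ q : ℚ, MeasurablySeparable ((fun p => p.1.1) '' (S ∩ {p | φ p.1.2 < q}))
        ((fun p => p.1.1) '' (S ∩ {p | φ p.1.2 < q}ᶜ)) := by
      intro q
      have hq : MeasurableSet {p : (X × X) × (Fin n → X) | φ p.1.2 < q} :=
        measurableSet_lt (hφ.measurable.comp (by fun_prop)) measurable_const
      refine AnalyticSet.measurablySeparable ((hS.inter hq).analyticSet_image (by fun_prop))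
        ((hS.inter hq.compl).analyticSet_image (by fun_prop)) ?_
      rw [Set.disjoint_left]
      rintro _ ⟨p, ⟨h1, h2⟩, rfl⟩ ⟨p', ⟨h3, h4⟩, e⟩
      simp only at e
      exact h4 (lt_of_le_of_lt (huniq p' h3 p.1.2 (by rw [e]; exact h1.1)) h2)
    choose D hD1 hD2 hD3 using hsep
    let B : Set (X × X) := {p | p ∈ A ∧ ∀ q : ℚ, φ p.2 < q ↔ p.1 ∈ D q}
    have hB : MeasurableSet B :=
      Measurable.setOf ((measurableSet_setOfPred.1 hA).and (Measurable.forall fun q =>
        Measurable.iff (measurableSet_setOfPred.1 (measurableSet_lt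
          (hφ.measurable.comp measurable_snd) measurable_const))
          (measurableSet_setOfPred.1 (measurable_fst (hD3 q)))))
    have hBi : InjOn Prod.fst B := by
      rintro ⟨x, y⟩ h1 ⟨x', y'⟩ h2 e
      simp only at e
      subst e
      have : φ y = φ y' := by
        apply le_antisymm <;> by_contra hc <;> obtain ⟨q, q1, q2⟩ := exists_rat_btwn (not_le.1 hc)
        · exact absurd ((h1.2 q).2 ((h2.2 q).1 q1)) (not_lt.2 q2.le)
        · exact absurd ((h2.2 q).2 ((h1.2 q).1 q1)) (not_lt.2 q2.le)
      rw [hφ.injective this]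
    obtain ⟨g0, hg0, hg0'⟩ := unif_graph B hB hBi
    obtain ⟨g, hg, hg'⟩ := ih (A \ B) (hA.diff hB) fun x => by
      by_cases hx : {y | (x, y) ∈ A}.encard ≤ n
      · exact (encard_le_encard fun y hy => hy.1).trans hx
      have hfin : {y | (x, y) ∈ A}.Finite := finite_of_encard_le_coe (h x)
      have hcard : {y | (x, y) ∈ A}.encard = (n + 1 : ℕ) :=
        le_antisymm (h x) (by push_cast; exact Order.add_one_le_of_lt (not_le.1 hx))
      obtain ⟨z, hz, hmin⟩ := exists_min_image _ φ hfin (nonempty_of_encard_ne_zero (by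
        rw [hcard]; norm_cast))
      have hrest : ({y | (x, y) ∈ A} \ {z}).encard = n := by
        rw [encard_diff_singleton_of_mem hz, hcard]
        rfl
      obtain ⟨t, ht1, ht2⟩ := fin_param' hrest
      have hzS : ((x, z), t) ∈ S := by
        refine ⟨hz, fun i => ?_, ht1⟩
        have hi : t i ∈ {y | (x, y) ∈ A} \ {z} := ht2 ▸ mem_range_self i
        exact ⟨hi.1, lt_of_le_of_ne (hmin _ hi.1) fun e => hi.2 (hφ.injective e).symm⟩
      have hzB : (x, z) ∈ B := by
        refine ⟨hz, fun q => ⟨fun hq => hD1 q ⟨_, ⟨hzS, hq⟩, rfl⟩, fun hq => ?_⟩⟩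
        by_contra hc
        exact Set.disjoint_left.1 (hD2 q) ⟨_, ⟨hzS, hc⟩, rfl⟩ hq
      rw [← hrest]
      exact encard_le_encard fun y hy => ⟨hy.1, fun e => hy.2 (by rw [mem_singleton_iff.1 e]; exact hzB)⟩
    refine ⟨Fin.cons g0 g, fun i => Fin.cases hg0 hg i, fun x y hxy => ?_⟩
    by_cases hb : (x, y) ∈ B
    · exact ⟨0, hg0' x y hb⟩
    · obtain ⟨i, hi⟩ := hg' x y ⟨hxy, hb⟩
      exact ⟨i.succ, hi⟩

theorem ex_cover (G : SimpleGraph X) (hG : MeasurableSet {p : X × X | G.Adj p.1 p.2}) (Δ : ℕ)
    (hd : ∀ x, (G.neighborSet x).encard ≤ Δ) :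
    ∃ g : ℕ → X → X, (∀ i, Measurable (g i)) ∧ ∀ x y, G.Reachable x y → ∃ i, g i x = y := by
  obtain ⟨g, h1, h2⟩ := lusin_novikov Δ _ hG hd
  let F : List (Fin Δ) → X → X := fun l x => l.foldl (fun y i => g i y) x
  have hF : ∀ l, Measurable (F l) := by
    intro l
    induction l with
    | nil => exact measurable_id
    | cons i l ih => exact ih.comp (h1 i)
  obtain ⟨e, he⟩ := exists_surjective_nat (List (Fin Δ))
  refine ⟨fun i => F (e i), fun i => hF _, fun x y => ?_⟩
  rintro ⟨w⟩
  have : ∃ l, F l x = y := by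
    induction w with
    | nil => exact ⟨[], rfl⟩
    | cons h _ ih =>
      obtain ⟨i, rfl⟩ := h2 _ _ h
      obtain ⟨l, hl⟩ := ih
      exact ⟨i :: l, hl⟩
  obtain ⟨l, hl⟩ := this
  obtain ⟨i, rfl⟩ := he l
  exact ⟨i, hl⟩

end Pool.Agent.H.MP_bf3dd3_lc
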